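import Pool.Agent.helper84.WZ.SpecA

set_option autoImplicit false

namespace WZ

theorem MV_SR (h R p j : ℕ) (hh : 3 ≤ h) (hR : 1 ≤ R) : R ≤ SR h R p j := by
  unfold SR
  have h1 : R ^ (p * (2 * h + 2) + (2 * 0 + j) + 1) ≤
      ∑ i ∈ Finset.range (h - 1), R ^ (p * (2 * h + 2) + (2 * i + j) + 1) :=
    Finset.single_le_sum (f := fun i => R ^ (p * (2 * h + 2) + (2 * i + j) + 1))
      (fun _ _ => Nat.zero_le _) (Finset.mem_range.2 (by omega))
  have h2 : R ^ 1 ≤ R ^ (p * (2 * h + 2) + (2 * 0 + j) + 1) :=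
    Nat.pow_le_pow_right hR (by omega)
  rw [pow_one] at h2
  exact h2.trans h1

theorem MV_toNat {S R D n : ℕ} {x : ℤ} (hS : R ≤ S) (hx : |x| ≤ (n : ℤ)) (hD : D * n < R) :
    ((((S : ℤ) - D * x).toNat : ℕ) : ℤ) = (S : ℤ) - D * x := by
  apply Int.toNat_of_nonneg
  have h1 : (D : ℤ) * x ≤ D * n := by
    apply mul_le_mul_of_nonneg_left _ (by positivity)
    exact (le_abs_self x).trans hx
  have h2 : (D : ℤ) * n < R := by exact_mod_cast hD
  have h3 : (R : ℤ) ≤ S := by exact_mod_cast hS
  linarith

theorem MV_ke (P : TW) : (ke P).toList = P.toList.map PL.snd := rfl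

theorem MV_mo (P : TW) : (mo P).toList = P.toList.map PL.fst := rfl

theorem MV : MV_stmt := by
  intro h R D n P hh hlen hbm hbk hD t d hmark hno q
  have hR : 1 ≤ R := by omega
  obtain ⟨b, hb⟩ : ∃ b, b = 2 * h + 2 := ⟨_, rfl⟩
  obtain ⟨p0, hp0⟩ : ∃ p0, p0 = q / b := ⟨_, rfl⟩
  obtain ⟨u0, hu0⟩ : ∃ u0, u0 = q % b := ⟨_, rfl⟩
  have hq : q = p0 * b + u0 := by rw [hp0, hu0]; exact (Nat.div_add_mod' q b).symm
  have hub : u0 < b := by rw [hu0]; exact Nat.mod_lt _ (by omega)
  -- other positions do not contribute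
  have hother : ∀ p, p ≠ p0 → dl h p (d p) q = 0 := by
    intro p hp
    unfold dl
    rw [← hb]
    have key : ∀ u, u < b → q ≠ p * b + u := by
      intro u hu he
      apply hp
      rw [hp0, he, Nat.mul_comm p b, Nat.mul_add_div (by omega), Nat.div_eq_of_lt hu, add_zero]
    rw [if_neg (key _ (by omega)), if_neg (key _ (by omega))]
  have hsum : ∑ p ∈ Finset.range n, t p * ((D : ℤ) * dl h p (d p) q) =
      if p0 < n then t p0 * ((D : ℤ) * dl h p0 (d p0) q) else 0 := by
    split_ifs with hlt
    · rw [Finset.sum_eq_single p0]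
      · intro p _ hp
        rw [hother p hp, mul_zero, mul_zero]
      · intro hp
        exact absurd (Finset.mem_range.2 hlt) hp
    · apply Finset.sum_eq_zero
      intro p hp
      rw [Finset.mem_range] at hp
      rw [hother p (by omega), mul_zero, mul_zero]
  rw [hsum]
  unfold ex
  rw [MV_ke, MV_mo, List.getElem?_map, List.getElem?_map, ← hb, ← hp0, ← hu0]
  rcases hP : P.toList[p0]? with _ | x
  · have ht : t p0 = 0 := hno p0 (by rw [hP]; intro v v'; simp)
    simp [ht]
  · have hlt : p0 < n := by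
      have h1 : p0 < P.toList.length := by
        by_contra hcon
        rw [not_lt] at hcon
        rw [List.getElem?_eq_none hcon] at hP
        cases hP
      exact lt_of_lt_of_le h1 hlen
    rw [if_pos hlt]
    have hmem : x ∈ P.toList := List.mem_of_getElem? hP
    cases x with
    | c s =>
      have ht : t p0 = 0 := hno p0 (by rw [hP]; intro v v'; simp)
      simp [ht, PL.fst, PL.snd]
    | k v =>
      have ht : t p0 = 0 := hno p0 (by rw [hP]; intro v v'; simp)
      simp [ht, PL.fst, PL.snd]
    | m v v' =>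
      have hv' := hmark p0 v v' hP
      have b1 := hbm v (by rw [MV_mo]; exact List.mem_map.2 ⟨_, hmem, rfl⟩)
      have b2 := hbk v' (by rw [MV_ke]; exact List.mem_map.2 ⟨_, hmem, rfl⟩)
      have e1 : v'.1 = v.1 + t p0 * (d p0).1 := by rw [hv']; simp
      have e2 : v'.2 = v.2 + t p0 * (d p0).2 := by rw [hv']; simp
      have s0 := MV_SR h R p0 0 hh hR
      have s1 := MV_SR h R p0 1 hh hR
      have g0 := MV_toNat s0 b2.1 hD
      have g1 := MV_toNat s0 b1.1 hD
      have g2 := MV_toNat s1 b2.2 hD
      have g3 := MV_toNat s1 b1.2 hD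
      have q1 : (q = p0 * b + (2 * h - 2)) ↔ u0 = 2 * h - 2 := by
        constructor
        · intro he; omega
        · intro he; omega
      have q2 : (q = p0 * b + (2 * h - 1)) ↔ u0 = 2 * h - 1 := by
        constructor
        · intro he; omega
        · intro he; omega
      have hdl : dl h p0 (d p0) q = if u0 = 2 * h - 2 then -(d p0).1
          else if u0 = 2 * h - 1 then -(d p0).2 else 0 := by
        unfold dl
        rw [← hb]
        simp only [q1, q2]
      rw [hdl]
      by_cases c1 : u0 < 2 * h - 2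
      · have c2 : ¬ u0 = 2 * h - 2 := by omega
        have c3 : ¬ u0 = 2 * h - 1 := by omega
        rw [if_neg c2, if_neg c3]
        simp [PL.fst, PL.snd, exl, c1]
      · by_cases c2 : u0 = 2 * h - 2
        · have f1 : exl h R D p0 (Lt.k v') u0 = (((SR h R p0 0 : ℕ) : ℤ) - D * v'.1).toNat := by
            unfold exl
            simp only [if_neg c1, if_pos c2]
          have f2 : exl h R D p0 (Lt.k v) u0 = (((SR h R p0 0 : ℕ) : ℤ) - D * v.1).toNat := by
            unfold exl
            simp only [if_neg c1, if_pos c2]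
          rw [if_pos c2]
          show (((exl h R D p0 (Lt.k v') u0 : ℕ)) : ℤ) = ((exl h R D p0 (Lt.k v) u0 : ℕ) : ℤ) + _
          rw [f1, f2, g0, g1, e1]
          ring
        · by_cases c3 : u0 = 2 * h - 1
          · have f1 : exl h R D p0 (Lt.k v') u0 = (((SR h R p0 1 : ℕ) : ℤ) - D * v'.2).toNat := by
              unfold exl
              simp only [if_neg c1, if_neg c2, if_pos c3]
            have f2 : exl h R D p0 (Lt.k v) u0 = (((SR h R p0 1 : ℕ) : ℤ) - D * v.2).toNat := by
              unfold exl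
              simp only [if_neg c1, if_neg c2, if_pos c3]
            rw [if_neg c2, if_pos c3]
            show (((exl h R D p0 (Lt.k v') u0 : ℕ)) : ℤ) = ((exl h R D p0 (Lt.k v) u0 : ℕ) : ℤ) + _
            rw [f1, f2, g2, g3, e2]
            ring
          · rw [if_neg c2, if_neg c3]
            simp [PL.fst, PL.snd, exl, c1, c2, c3]

end WZ
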